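import Pool.Agent.helper21.OE.SpecA

/-! # Row oe:NRF (MP_2e0e07_nt) -/

set_option autoImplicit false

namespace Pool.Agent.OE

open MvPolynomial Matrix

theorem NRF : NRF_stmt := by
  intro d t ℓ hℓ κ _ π hκ x
  have hfact : Fact ℓ.Prime := ⟨hℓ⟩
  have hN : x * star x = ((QuadraticAlgebra.norm x : ℤ) : Oz d t) := by
    rw [← QuadraticAlgebra.algebraMap_norm_eq_mul_star]
    rfl
  constructor
  · rintro ⟨c, hc⟩
    rw [hN, map_intCast, hc]
    push_cast
    rw [hκ, zero_mul]
  · intro hnd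
    have h1 : π (x * star x) ^ (ℓ - 1) = 1 := by
      have h2 : ((QuadraticAlgebra.norm x : ℤ) : ZMod ℓ) ≠ 0 := by
        intro h
        exact hnd ((ZMod.intCast_zmod_eq_zero_iff_dvd _ ℓ).1 h)
      have h3 := ZMod.pow_card_sub_one_eq_one h2
      have h4 : (ℓ : ℤ) ∣ QuadraticAlgebra.norm x ^ (ℓ - 1) - 1 := by
        rw [← ZMod.intCast_zmod_eq_zero_iff_dvd]
        push_cast
        rw [h3, sub_self]
      obtain ⟨c, hc⟩ := h4
      have h5 : ((QuadraticAlgebra.norm x ^ (ℓ - 1) - 1 : ℤ) : κ) = 0 := by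
        rw [hc]
        push_cast
        rw [hκ, zero_mul]
      rw [hN, map_intCast]
      push_cast at h5
      exact sub_eq_zero.1 h5
    have h6 : ℓ - 1 ≠ 0 := by
      have := hℓ.two_le
      omega
    refine ⟨h1, ?_, ?_⟩
    · intro h0
      rw [map_mul, h0, zero_mul, zero_pow h6] at h1
      exact zero_ne_one h1
    · intro h0
      rw [map_mul, h0, mul_zero, zero_pow h6] at h1
      exact zero_ne_one h1

end Pool.Agent.OE
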