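import Pool.Agent.helper21.OE.SpecA

/-! # Row oe:REQ (MP_2e0e07_nt) -/

set_option autoImplicit false

namespace Pool.Agent.OE

open MvPolynomial Matrix

theorem REQ : REQ_stmt := by
  intro d t ℓ hℓ p
  have hfact : Fact ℓ.Prime := ⟨hℓ⟩
  have hN : p * star p = ((QuadraticAlgebra.norm p : ℤ) : Oz d t) := by
    rw [← QuadraticAlgebra.algebraMap_norm_eq_mul_star]
    rfl
  constructor
  · intro h
    have hco : IsCoprime (QuadraticAlgebra.norm p : ℤ) (ℓ : ℤ) := by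
      rw [isCoprime_comm]
      exact (Nat.prime_iff_prime_int.mp hℓ).coprime_iff_not_dvd.mpr h
    obtain ⟨a, b, hab⟩ := hco
    refine ⟨(a : Oz d t) * star p, ⟨-(b : Oz d t), ?_⟩⟩
    have h1 : p * ((a : Oz d t) * star p) = (a : Oz d t) * (p * star p) := by ring
    rw [h1, hN]
    have h2 : ((a * QuadraticAlgebra.norm p + b * (ℓ : ℤ) : ℤ) : Oz d t) = 1 := by
      rw [hab]
      simp
    push_cast at h2
    have h3 : (a : Oz d t) * ((QuadraticAlgebra.norm p : ℤ) : Oz d t) = 1 - (b : Oz d t) * ((ℓ : ℕ) : Oz d t) :=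
      eq_sub_of_add_eq h2
    rw [h3]
    ring
  · rintro ⟨p', z, hz⟩ ⟨c, hc⟩
    have h1 : p * p' = 1 + ((ℓ : ℕ) : Oz d t) * z := by
      rw [← hz]
      ring
    have h2 : QuadraticAlgebra.norm p * QuadraticAlgebra.norm p' =
        QuadraticAlgebra.norm (1 + ((ℓ : ℕ) : Oz d t) * z) := by
      rw [← map_mul, h1]
    have h3 : ∃ e : ℤ, QuadraticAlgebra.norm (1 + ((ℓ : ℕ) : Oz d t) * z) = 1 + (ℓ : ℤ) * e := by
      refine ⟨2 * z.re + t * z.im + (ℓ : ℤ) * QuadraticAlgebra.norm z, ?_⟩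
      have e1 : QuadraticAlgebra.re (1 : Oz d t) = 1 := rfl
      have e2 : QuadraticAlgebra.im (1 : Oz d t) = 0 := rfl
      simp only [QuadraticAlgebra.norm_def]
      simp
      rw [e1, e2]
      ring
    obtain ⟨e, he⟩ := h3
    rw [he, hc] at h2
    have h4 : (ℓ : ℤ) ∣ 1 := ⟨c * QuadraticAlgebra.norm p' - e, by linear_combination -h2⟩
    have h5 := Int.natCast_dvd_natCast.mp (by exact_mod_cast h4 : ((ℓ : ℕ) : ℤ) ∣ ((1 : ℕ) : ℤ))
    exact hℓ.one_lt.ne' (Nat.dvd_one.mp h5)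

end Pool.Agent.OE
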